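import Pool.Agent.H97.Tw

open Pool.Agent.H97.Tw

namespace Pool.Agent.Results.MP_25e654_an.No

theorem result : ∃ (X Y M : Type) (_ : NormedAddCommGroup X) (_ : NormedSpace ℝ X)
    (_ : NormedAddCommGroup Y) (_ : NormedSpace ℝ Y) (_ : NormedAddCommGroup M)
    (_ : NormedSpace ℝ M) (j : M →L[ℝ] Y) (φ : X → Y),
    CompleteSpace X ∧ CompleteSpace Y ∧ CompleteSpace M ∧ TopologicalSpace.SeparableSpace X ∧
    TopologicalSpace.SeparableSpace Y ∧ Function.Injective j ∧ (∀ m, ‖j m‖ ≤ ‖m‖) ∧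
    @Measurable _ _ (borel X) (borel Y) φ ∧
    (∀ (c d : ℝ) x y, φ (c • x + d • y) - (c • φ x + d • φ y) ∈ Set.range j) ∧
    ¬ ∃ (V : Type) (_ : NormedAddCommGroup V) (_ : NormedSpace ℝ V) (ι : V →L[ℝ] Y),
      CompleteSpace V ∧ Set.range ι = {y | ∃ x m, y = φ x + j m} := by
  refine ⟨L, L × L, L, inferInstance, inferInstance, inferInstance, inferInstance, inferInstance,
    inferInstance, D.prod 0, fun x => (Om x, x), inferInstance, inferInstance, inferInstance,
    inferInstance, inferInstance, fun _ _ h => D_inj (congrArg Prod.fst h), fun m => ?_, ?_,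
    fun c d x y => ?_, fun ⟨V, _, _, ι, _, h⟩ => main ι.toLinearMap ι.continuous.borel_measurable
      fun p => ?_⟩
  · simpa using D.le_of_opNorm_le D_norm m
  · borelize L
    rw [← BorelSpace.measurable_eq (α := L × L)]
    exact Om_meas.prodMk measurable_id
  · obtain ⟨m, hm⟩ := Om_lin c d x y
    exact ⟨m, by simp [hm]⟩
  · rw [ContinuousLinearMap.coe_coe, h]
    constructor
    · rintro ⟨x, m, rfl⟩
      exact ⟨m, by simp⟩
    · rintro ⟨m, hm⟩
      exact ⟨p.2, m, by simp [hm]⟩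

end Pool.Agent.Results.MP_25e654_an.No
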